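import Pool.Agent.LibStable.Comp

set_option autoImplicit false
open MeasureTheory ProbabilityTheory Filter Topology
open scoped ENNReal NNReal

namespace Pool.Agent.LibStable

/-- value of a nonnegative function at the `p`-th point of the configuration (0 if absent) -/
noncomputable def ept (g : ℝ × ℝ → ℝ≥0∞) (ω : Om) (p : (ℤ × ℤ) × ℕ) : ℝ≥0∞ :=
  if p.2 < (ω p.1).1 then g ((ω p.1).2 p.2) else 0

/-- value of a real function at the `p`-th point of the configuration (0 if absent) -/
noncomputable def pt (g : ℝ × ℝ → ℝ) (ω : Om) (p : (ℤ × ℤ) × ℕ) : ℝ :=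
  if p.2 < (ω p.1).1 then g ((ω p.1).2 p.2) else 0

lemma measurable_ept {g : ℝ × ℝ → ℝ≥0∞} (hg : Measurable g) (p : (ℤ × ℤ) × ℕ) :
    Measurable (fun ω => ept g ω p) := by
  unfold ept
  refine Measurable.ite ?_ ?_ measurable_const
  · exact measurableSet_lt measurable_const (measurable_fst.comp (measurable_pi_apply p.1))
  · exact hg.comp ((measurable_pi_apply p.2).comp (measurable_snd.comp (measurable_pi_apply p.1)))

lemma measurable_pt {g : ℝ × ℝ → ℝ} (hg : Measurable g) (p : (ℤ × ℤ) × ℕ) :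
    Measurable (fun ω => pt g ω p) := by
  unfold pt
  refine Measurable.ite ?_ ?_ measurable_const
  · exact measurableSet_lt measurable_const (measurable_fst.comp (measurable_pi_apply p.1))
  · exact hg.comp ((measurable_pi_apply p.2).comp (measurable_snd.comp (measurable_pi_apply p.1)))

lemma lintegral_nat_poisson : ∫⁻ n, (n : ℝ≥0∞) ∂(poissonMeasure 1) ≠ ∞ := by
  have h1 : Integrable (fun n : ℕ => (n : ℝ)) (poissonMeasure 1) := by
    rw [integrable_poissonMeasure_iff]
    have h2 := Real.summable_pow_div_factorial 1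
    have h3 : Summable (fun n : ℕ => Real.exp (-((1 : ℝ≥0) : ℝ)) * ((1:ℝ≥0):ℝ) ^ (n+1) / ((n+1).factorial : ℝ) * ‖((n+1 : ℕ) : ℝ)‖) := by
      have : (fun n : ℕ => Real.exp (-((1 : ℝ≥0) : ℝ)) * ((1:ℝ≥0):ℝ) ^ (n+1) / ((n+1).factorial : ℝ) * ‖((n+1 : ℕ) : ℝ)‖) =
          fun n : ℕ => Real.exp (-1) * (1 ^ n / (n.factorial : ℝ)) := by
        ext n
        rw [Nat.factorial_succ]
        simp only [NNReal.coe_one, one_pow, mul_one, Nat.cast_mul, Real.norm_natCast]
        have : ((n + 1 : ℕ) : ℝ) ≠ 0 := by positivity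
        have h' : (n.factorial : ℝ) ≠ 0 := by positivity
        field_simp
      rw [this]
      exact h2.mul_left _
    exact (summable_nat_add_iff 1).1 h3
  have h4 := h1.2
  rw [hasFiniteIntegral_iff_enorm] at h4
  have h5 : ∀ n : ℕ, ‖(n : ℝ)‖ₑ = (n : ℝ≥0∞) := by
    intro n
    rw [Real.enorm_natCast]
  simp_rw [h5] at h4
  exact h4.ne

lemma tsum_poisson_tail :
    ∑' k : ℕ, (poissonMeasure 1) {n | k < n} = ∫⁻ n, (n : ℝ≥0∞) ∂(poissonMeasure 1) := by
  have h1 : ∀ n : ℕ, (n : ℝ≥0∞) = ∑' k : ℕ, Set.indicator {n : ℕ | k < n} (fun _ => (1 : ℝ≥0∞)) n := by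
    intro n
    rw [tsum_eq_sum (s := Finset.range n)]
    · have : ∀ k ∈ Finset.range n, Set.indicator {m : ℕ | k < m} (fun _ => (1 : ℝ≥0∞)) n = 1 := by
        intro k hk
        rw [Set.indicator_of_mem]
        exact Finset.mem_range.1 hk
      rw [Finset.sum_congr rfl this]
      simp
    · intro k hk
      rw [Set.indicator_of_notMem]
      simpa using hk
  simp_rw [h1]
  rw [lintegral_tsum]
  · congr 1
    ext k
    rw [lintegral_indicator (by exact MeasurableSet.of_discrete)]
    simp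
  · intro k
    exact Measurable.aemeasurable (by exact Measurable.of_discrete)

lemma lintegral_comp_term (i : ℤ × ℤ) (k : ℕ) {g : ℝ × ℝ → ℝ≥0∞} (hg : Measurable g) :
    ∫⁻ w, (if k < w.1 then g (w.2 k) else 0) ∂(compLaw i) =
      (poissonMeasure 1) {n | k < n} * ∫⁻ x, g x ∂(cellLaw i) := by
  have h1 : ∀ w : ℕ × (ℕ → ℝ × ℝ), (if k < w.1 then g (w.2 k) else 0) =
      Set.indicator {n : ℕ | k < n} (fun _ => (1 : ℝ≥0∞)) w.1 * g (w.2 k) := by
    intro w
    by_cases h : k < w.1
    · rw [if_pos h, Set.indicator_of_mem (by exact h), one_mul]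
    · rw [if_neg h, Set.indicator_of_notMem (by exact h), zero_mul]
  simp_rw [h1]
  unfold compLaw
  rw [lintegral_prod_mul (f := fun n => Set.indicator {n : ℕ | k < n} (fun _ => (1 : ℝ≥0∞)) n)
    (g := fun z : ℕ → ℝ × ℝ => g (z k))]
  · congr 1
    · rw [lintegral_indicator (by exact MeasurableSet.of_discrete)]
      simp
    · exact (measurePreserving_eval_infinitePi (fun _ : ℕ => cellLaw i) k).lintegral_comp hg
  · exact Measurable.aemeasurable (by exact Measurable.of_discrete)
  · exact (hg.comp (measurable_pi_apply k)).aemeasurable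

lemma lintegral_tsum_ept {g : ℝ × ℝ → ℝ≥0∞} (hg : Measurable g) :
    ∫⁻ ω, ∑' p, ept g ω p ∂PP =
      (∫⁻ n, (n : ℝ≥0∞) ∂(poissonMeasure 1)) * ∫⁻ x, g x := by
  rw [lintegral_tsum (fun p => (measurable_ept hg p).aemeasurable)]
  have h1 : ∀ p : (ℤ × ℤ) × ℕ, ∫⁻ ω, ept g ω p ∂PP =
      (poissonMeasure 1) {n | p.2 < n} * ∫⁻ x, g x ∂(cellLaw p.1) := by
    intro p
    rw [← lintegral_comp_term p.1 p.2 hg]
    unfold ept
    have hm : Measurable (fun w : ℕ × (ℕ → ℝ × ℝ) => if p.2 < w.1 then g (w.2 p.2) else 0) := by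
      refine Measurable.ite ?_ ?_ measurable_const
      · exact measurableSet_lt measurable_const measurable_fst
      · exact hg.comp ((measurable_pi_apply p.2).comp measurable_snd)
    exact (measurePreserving_eval_infinitePi compLaw p.1).lintegral_comp hm
  simp_rw [h1]
  rw [ENNReal.tsum_prod (f := fun i k => (poissonMeasure 1) {n | k < n} * ∫⁻ x, g x ∂(cellLaw i))]
  have h2 : ∀ i : ℤ × ℤ, ∑' k : ℕ, (poissonMeasure 1) {n | k < n} * ∫⁻ x, g x ∂(cellLaw i) =
      (∫⁻ n, (n : ℝ≥0∞) ∂(poissonMeasure 1)) * ∫⁻ x, g x ∂(cellLaw i) := by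
    intro i
    rw [ENNReal.tsum_mul_right, tsum_poisson_tail]
  simp_rw [h2]
  rw [ENNReal.tsum_mul_left, ← lintegral_sum_measure, sum_cellLaw]

/-- almost sure absolute convergence of sums over the configuration -/
lemma ae_summable {g : ℝ × ℝ → ℝ} (hg : Measurable g)
    (hfin : ∫⁻ x, min ‖g x‖ₑ 1 ≠ ∞) :
    ∀ᵐ ω ∂PP, Summable (fun p => ‖pt g ω p‖) := by
  have hm : Measurable (fun x => min ‖g x‖ₑ 1) := hg.enorm.min measurable_const
  have h1 : ∫⁻ ω, ∑' p, ept (fun x => min ‖g x‖ₑ 1) ω p ∂PP ≠ ∞ := by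
    rw [lintegral_tsum_ept hm]
    exact ENNReal.mul_ne_top lintegral_nat_poisson hfin
  have h2 := ae_lt_top (Measurable.tsum (fun p => measurable_ept hm p)) h1
  filter_upwards [h2] with ω hω
  -- real version of the truncated sum
  have h3 : Summable (fun p => min ‖pt g ω p‖ 1) := by
    have h4 := ENNReal.summable_toReal hω.ne
    refine h4.congr ?_
    intro p
    unfold ept pt
    split_ifs with h
    · rw [ENNReal.toReal_min (by simp) (by simp)]
      simp
    · simp
  have h5 : ∀ᶠ p in cofinite, min ‖pt g ω p‖ 1 < 1 := by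
    have := h3.tendsto_cofinite_zero
    exact this.eventually_lt_const one_pos
  refine (summable_norm_iff (f := fun p => ‖pt g ω p‖)).1 ?_
  refine h3.of_norm_bounded_eventually (g := fun p => min ‖pt g ω p‖ 1) ?_
  filter_upwards [h5] with p hp
  simp only [norm_norm]
  by_contra hcon
  push Not at hcon
  rcases min_lt_iff.1 hp with h | h
  · rw [min_eq_left h.le] at hcon
    exact lt_irrefl _ hcon
  · exact absurd h (lt_irrefl _)

end Pool.Agent.LibStable
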