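import Pool.Agent.LibStable.Camp

set_option autoImplicit false
open MeasureTheory ProbabilityTheory Filter Topology
open scoped ENNReal NNReal

namespace Pool.Agent.LibStable

/-- sum of `g` over the configuration -/
noncomputable def S (g : ℝ × ℝ → ℝ) (ω : Om) : ℝ := ∑' p, pt g ω p

lemma measurable_S {g : ℝ × ℝ → ℝ} (hg : Measurable g) : Measurable (S g) :=
  Measurable.tsum (fun p => measurable_pt hg p)

/-- the phase of the `i`-th cell -/
noncomputable def ph (g : ℝ × ℝ → ℝ) (w : ℕ × (ℕ → ℝ × ℝ)) : ℂ :=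
  ∏ k ∈ Finset.range w.1, Complex.exp ((g (w.2 k) : ℂ) * Complex.I)

lemma measurable_ph {g : ℝ × ℝ → ℝ} (hg : Measurable g) : Measurable (ph g) := by
  unfold ph
  apply measurable_from_prod_countable_right
  intro n
  exact Finset.measurable_fun_prod (Finset.range n)
    (fun k _ => Complex.measurable_exp.comp
      ((Complex.measurable_ofReal.comp (hg.comp (measurable_pi_apply k))).mul_const _))

lemma norm_ph (g : ℝ × ℝ → ℝ) (w : ℕ × (ℕ → ℝ × ℝ)) : ‖ph g w‖ = 1 := by
  unfold ph
  rw [norm_prod]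
  simp [Complex.norm_exp_ofReal_mul_I]

lemma integral_ph {g : ℝ × ℝ → ℝ} (hg : Measurable g) (i : ℤ × ℤ) :
    ∫ w, ph g w ∂(compLaw i) =
      Complex.exp (∫ x, (Complex.exp ((g x : ℂ) * Complex.I) - 1) ∂(cellLaw i)) := by
  refine integral_comp i (fun x => Complex.exp ((g x : ℂ) * Complex.I)) ?_ ?_
  · exact Complex.measurable_exp.comp ((Complex.measurable_ofReal.comp hg).mul_const _)
  · intro x
    rw [Complex.norm_exp_ofReal_mul_I]

lemma integral_prod_ph {g : ℝ × ℝ → ℝ} (hg : Measurable g) (s : Finset (ℤ × ℤ)) :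
    ∫ ω, ∏ i ∈ s, ph g (ω i) ∂PP =
      Complex.exp (∑ i ∈ s, ∫ x, (Complex.exp ((g x : ℂ) * Complex.I) - 1) ∂(cellLaw i)) := by
  have h1 : ∀ ω : Om, ∏ i ∈ s, ph g (ω i) =
      (fun y : s → ℕ × (ℕ → ℝ × ℝ) => ∏ i : s, ph g (y i)) (s.restrict ω) := by
    intro ω
    simp only [Finset.restrict]
    rw [Finset.prod_coe_sort s (fun i => ph g (ω i))]
  simp_rw [h1]
  unfold PP
  rw [integral_restrict_infinitePi (μ := compLaw) (s := s)
    (f := fun y : s → ℕ × (ℕ → ℝ × ℝ) => ∏ i : s, ph g (y i))]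
  · rw [integral_fintype_prod_eq_prod (f := fun _ x => ph g x), Complex.exp_sum,
      ← Finset.prod_coe_sort s]
    refine Finset.prod_congr rfl fun i _ => ?_
    exact integral_ph hg i
  · apply Measurable.aestronglyMeasurable
    exact Finset.measurable_fun_prod _ (fun i _ => (measurable_ph hg).comp (measurable_pi_apply i))

lemma norm_exp_sub_one_le (y : ℝ) : ‖Complex.exp ((y : ℂ) * Complex.I) - 1‖ ≤ 2 * min ‖y‖ 1 := by
  rcases le_total ‖y‖ 1 with h | h
  · rw [min_eq_left h]
    have := Real.norm_exp_I_mul_ofReal_sub_one_le (x := y)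
    rw [mul_comm] at this
    linarith [norm_nonneg y]
  · rw [min_eq_right h]
    calc ‖Complex.exp ((y : ℂ) * Complex.I) - 1‖ ≤ ‖Complex.exp ((y : ℂ) * Complex.I)‖ + ‖(1:ℂ)‖ := norm_sub_le _ _
      _ = 2 * 1 := by rw [Complex.norm_exp_ofReal_mul_I, norm_one]; norm_num

lemma integrable_exp_sub_one {g : ℝ × ℝ → ℝ} (hg : Measurable g)
    (hfin : ∫⁻ x, min ‖g x‖ₑ 1 ≠ ∞) :
    Integrable (fun x => Complex.exp ((g x : ℂ) * Complex.I) - 1) (volume : Measure (ℝ × ℝ)) := by
  refine ⟨?_, ?_⟩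
  · exact ((Complex.measurable_exp.comp ((Complex.measurable_ofReal.comp hg).mul_const _)).sub_const _).aestronglyMeasurable
  · rw [hasFiniteIntegral_iff_enorm]
    have h1 : ∀ x, ‖Complex.exp ((g x : ℂ) * Complex.I) - 1‖ₑ ≤ 2 * min ‖g x‖ₑ 1 := by
      intro x
      have := norm_exp_sub_one_le (g x)
      have h2 : ‖Complex.exp ((g x : ℂ) * Complex.I) - 1‖ₑ ≤ ENNReal.ofReal (2 * min ‖g x‖ 1) := by
        rw [← ofReal_norm]
        exact ENNReal.ofReal_le_ofReal this
      refine h2.trans ?_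
      rw [ENNReal.ofReal_mul (by norm_num), ENNReal.ofReal_min, ofReal_norm]
      simp
    calc ∫⁻ x, ‖Complex.exp ((g x : ℂ) * Complex.I) - 1‖ₑ ≤ ∫⁻ x, 2 * min ‖g x‖ₑ 1 := lintegral_mono h1
      _ = 2 * ∫⁻ x, min ‖g x‖ₑ 1 := lintegral_const_mul _ (hg.enorm.min measurable_const)
      _ < ∞ := ENNReal.mul_lt_top (by simp) hfin.lt_top

/-- characteristic functional of the Poisson configuration -/
theorem charFunctional {g : ℝ × ℝ → ℝ} (hg : Measurable g)
    (hfin : ∫⁻ x, min ‖g x‖ₑ 1 ≠ ∞) :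
    ∫ ω, Complex.exp ((S g ω : ℂ) * Complex.I) ∂PP =
      Complex.exp (∫ x, (Complex.exp ((g x : ℂ) * Complex.I) - 1)) := by
  have hlim1 : Tendsto (fun s : Finset (ℤ × ℤ) => ∫ ω, ∏ i ∈ s, ph g (ω i) ∂PP) atTop
      (𝓝 (∫ ω, Complex.exp ((S g ω : ℂ) * Complex.I) ∂PP)) := by
    refine tendsto_integral_filter_of_dominated_convergence (fun _ => 1) ?_ ?_ (integrable_const _) ?_
    · refine Eventually.of_forall fun s => ?_
      exact (Finset.measurable_fun_prod _ (fun i _ => (measurable_ph hg).comp (measurable_pi_apply i))).aestronglyMeasurable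
    · refine Eventually.of_forall fun s => ae_of_all _ fun ω => ?_
      rw [norm_prod]
      simp [norm_ph]
    · filter_upwards [ae_summable hg hfin] with ω hω
      have hs : Summable (fun p => pt g ω p) := hω.of_norm
      have h1 : HasSum (fun i : ℤ × ℤ => ∑ k ∈ Finset.range (ω i).1, g ((ω i).2 k)) (S g ω) := by
        refine hs.hasSum.prod_fiberwise ?_
        intro i
        have h2 : HasSum (fun k : ℕ => pt g ω (i, k)) (∑ k ∈ Finset.range (ω i).1, pt g ω (i, k)) := by
          refine hasSum_sum_of_ne_finset_zero ?_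
          intro k hk
          unfold pt
          rw [if_neg]
          simpa using hk
        convert h2 using 1
        refine Finset.sum_congr rfl fun k hk => ?_
        unfold pt
        rw [if_pos]
        simpa using hk
      have h3 : ∀ s : Finset (ℤ × ℤ), ∏ i ∈ s, ph g (ω i) =
          Complex.exp (((∑ i ∈ s, ∑ k ∈ Finset.range (ω i).1, g ((ω i).2 k) : ℝ) : ℂ) * Complex.I) := by
        intro s
        push_cast
        rw [Finset.sum_mul, Complex.exp_sum]
        refine Finset.prod_congr rfl fun i _ => ?_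
        rw [Finset.sum_mul, Complex.exp_sum]
        rfl
      simp_rw [h3]
      have h4 : Continuous (fun y : ℝ => Complex.exp ((y : ℂ) * Complex.I)) := by fun_prop
      exact (h4.tendsto _).comp h1
  have hlim2 : Tendsto (fun s : Finset (ℤ × ℤ) => ∫ ω, ∏ i ∈ s, ph g (ω i) ∂PP) atTop
      (𝓝 (Complex.exp (∫ x, (Complex.exp ((g x : ℂ) * Complex.I) - 1)))) := by
    simp_rw [integral_prod_ph hg]
    have h5 := integrable_exp_sub_one hg hfin
    have h6 : Integrable (fun x => Complex.exp ((g x : ℂ) * Complex.I) - 1) (Measure.sum cellLaw) := by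
      rw [sum_cellLaw]; exact h5
    have h7 := hasSum_integral_measure h6
    rw [sum_cellLaw] at h7
    exact (Complex.continuous_exp.tendsto _).comp h7
  exact tendsto_nhds_unique hlim1 hlim2

end Pool.Agent.LibStable
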