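import Mathlib

set_option autoImplicit false
open MeasureTheory ProbabilityTheory Filter Topology
open scoped ENNReal NNReal

namespace Pool.Agent.LibStable

/-- the unit cell of the plane with corner `i` -/
def cell (i : ℤ × ℤ) : Set (ℝ × ℝ) :=
  Set.Ioc (i.1 : ℝ) (i.1 + 1) ×ˢ Set.Ioc (i.2 : ℝ) (i.2 + 1)

lemma measurableSet_cell (i : ℤ × ℤ) : MeasurableSet (cell i) :=
  measurableSet_Ioc.prod measurableSet_Ioc

/-- the uniform law on a unit cell -/
noncomputable def cellLaw (i : ℤ × ℤ) : Measure (ℝ × ℝ) := volume.restrict (cell i)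

instance (i : ℤ × ℤ) : IsProbabilityMeasure (cellLaw i) := by
  constructor
  rw [cellLaw, Measure.restrict_apply_univ, cell, Measure.volume_eq_prod, Measure.prod_prod]
  simp

lemma sum_cellLaw : Measure.sum cellLaw = (volume : Measure (ℝ × ℝ)) := by
  have hU : (⋃ i, cell i) = Set.univ := by
    ext ⟨x, y⟩
    have h1 : x ∈ ⋃ n : ℤ, Set.Ioc (n : ℝ) (n + 1) := by rw [iUnion_Ioc_intCast]; trivial
    have h2 : y ∈ ⋃ n : ℤ, Set.Ioc (n : ℝ) (n + 1) := by rw [iUnion_Ioc_intCast]; trivial
    obtain ⟨n, hn⟩ := Set.mem_iUnion.1 h1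
    obtain ⟨m, hm⟩ := Set.mem_iUnion.1 h2
    simp only [Set.mem_iUnion, Set.mem_univ, iff_true]
    exact ⟨(n, m), hn, hm⟩
  have hd : Pairwise (Function.onFun Disjoint cell) := by
    intro i j hij
    rw [Function.onFun, Set.disjoint_left]
    rintro ⟨x, y⟩ ⟨h1, h2⟩ ⟨h3, h4⟩
    apply hij
    have key : ∀ (a b : ℤ) (z : ℝ), z ∈ Set.Ioc (a : ℝ) (a + 1) → z ∈ Set.Ioc (b : ℝ) (b + 1) → a = b := by
      intro a b z ha hb
      by_contra hne
      have := Set.pairwise_disjoint_Ioc_intCast (α := ℝ) hne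
      exact Set.disjoint_left.1 this ha hb
    exact Prod.ext (key _ _ _ h1 h3) (key _ _ _ h2 h4)
  have := Measure.restrict_iUnion (μ := (volume : Measure (ℝ × ℝ))) hd measurableSet_cell
  rw [hU, Measure.restrict_univ] at this
  exact this.symm

/-- law of a Poisson number together with a sequence of independent uniform points of a cell -/
noncomputable def compLaw (i : ℤ × ℤ) : Measure (ℕ × (ℕ → ℝ × ℝ)) :=
  (poissonMeasure 1).prod (Measure.infinitePi fun _ : ℕ => cellLaw i)

instance (i : ℤ × ℤ) : IsProbabilityMeasure (compLaw i) := by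
  unfold compLaw; infer_instance

/-- the sample space -/
abbrev Om : Type := ℤ × ℤ → ℕ × (ℕ → ℝ × ℝ)

/-- the law of the Poisson configuration -/
noncomputable def PP : Measure Om := Measure.infinitePi compLaw

instance : IsProbabilityMeasure PP := by
  unfold PP; infer_instance

lemma integral_pow_iid (ρ : Measure (ℝ × ℝ)) [IsProbabilityMeasure ρ] (h : ℝ × ℝ → ℂ)
    (hm : Measurable h) (n : ℕ) :
    ∫ z, ∏ k ∈ Finset.range n, h (z k) ∂(Measure.infinitePi fun _ : ℕ => ρ) = (∫ x, h x ∂ρ) ^ n := by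
  have h1 : ∀ z : ℕ → ℝ × ℝ, ∏ k ∈ Finset.range n, h (z k) =
      (fun y : (Finset.range n) → ℝ × ℝ => ∏ k : Finset.range n, h (y k)) ((Finset.range n).restrict z) := by
    intro z
    simp only [Finset.restrict]
    rw [Finset.prod_coe_sort (Finset.range n) (fun k => h (z k))]
  simp_rw [h1]
  rw [integral_restrict_infinitePi (μ := fun _ : ℕ => ρ) (s := Finset.range n)
    (f := fun y : (Finset.range n) → ℝ × ℝ => ∏ k : Finset.range n, h (y k))]
  · rw [integral_fintype_prod_eq_prod (f := fun _ x => h x)]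
    simp
  · apply Measurable.aestronglyMeasurable
    fun_prop

lemma integral_comp (i : ℤ × ℤ) (h : ℝ × ℝ → ℂ) (hm : Measurable h) (hb : ∀ x, ‖h x‖ ≤ 1) :
    ∫ w, ∏ k ∈ Finset.range w.1, h (w.2 k) ∂(compLaw i) =
      Complex.exp (∫ x, (h x - 1) ∂(cellLaw i)) := by
  have hmeas : Measurable (fun w : ℕ × (ℕ → ℝ × ℝ) => ∏ k ∈ Finset.range w.1, h (w.2 k)) := by
    apply measurable_from_prod_countable_right
    intro n
    exact Finset.measurable_fun_prod (Finset.range n) (fun k _ => hm.comp (measurable_pi_apply k))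
  have hint : Integrable (fun w : ℕ × (ℕ → ℝ × ℝ) => ∏ k ∈ Finset.range w.1, h (w.2 k)) (compLaw i) := by
    apply Integrable.of_bound hmeas.aestronglyMeasurable 1
    refine ae_of_all _ fun w => ?_
    rw [norm_prod]
    exact Finset.prod_le_one (fun _ _ => norm_nonneg _) (fun _ _ => hb _)
  have hint2 : Integrable h (cellLaw i) :=
    Integrable.of_bound hm.aestronglyMeasurable 1 (ae_of_all _ hb)
  unfold compLaw at hint ⊢
  rw [integral_prod _ hint]
  simp only
  simp_rw [integral_pow_iid (cellLaw i) h hm]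
  rw [integral_poissonMeasure, integral_sub hint2 (integrable_const _)]
  simp only [NNReal.coe_one, one_pow, mul_one, integral_const, probReal_univ, one_smul]
  set c := ∫ x, h x ∂(cellLaw i) with hc
  have := NormedSpace.expSeries_div_hasSum_exp (𝔸 := ℂ) c
  rw [← Complex.exp_eq_exp_ℂ] at this
  have h2 := (this.mul_left (Complex.exp (-1))).tsum_eq
  rw [← Complex.exp_add] at h2
  rw [show c - 1 = -1 + c by ring, ← h2]
  congr 1
  ext n
  rw [Complex.real_smul]
  push_cast
  ring

end Pool.Agent.LibStable
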