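import Mathlib

set_option autoImplicit false
open MeasureTheory ProbabilityTheory Filter Topology
open scoped ENNReal NNReal

namespace Pool.Agent.LibStable

lemma gauss_small {δ : ℝ} (hδ : 0 < δ) (a : ℝ) (ha : 0 ≤ a) :
    (gaussianReal 0 (Real.toNNReal (δ⁻¹ ^ 2))).real (Set.Ioo (-a) a) ≤ a * δ := by
  set v : ℝ≥0 := Real.toNNReal (δ⁻¹ ^ 2) with hv
  have hvc : (v : ℝ) = δ⁻¹ ^ 2 := Real.coe_toNNReal _ (by positivity)
  have hvne : v ≠ 0 := by
    intro h
    have : (v : ℝ) = 0 := by rw [h]; rfl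
    rw [hvc] at this
    have h2 : 0 < δ⁻¹ ^ 2 := by positivity
    linarith
  rw [measureReal_def, gaussianReal_apply _ hvne]
  have hpdf : ∀ x, gaussianPDF 0 v x ≤ ENNReal.ofReal (δ / 2) := by
    intro x
    unfold gaussianPDF
    refine ENNReal.ofReal_le_ofReal ?_
    rw [gaussianPDFReal_def]
    simp only
    have h1 : Real.exp (-(x - 0) ^ 2 / (2 * (v:ℝ))) ≤ 1 := by
      rw [Real.exp_le_one_iff]
      apply div_nonpos_of_nonpos_of_nonneg
      · nlinarith [sq_nonneg (x - 0)]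
      · positivity
    have h2 : (√(2 * Real.pi * (v:ℝ)))⁻¹ ≤ δ / 2 := by
      have h3 : 2 * δ⁻¹ ≤ √(2 * Real.pi * (v:ℝ)) := by
        apply Real.le_sqrt_of_sq_le
        rw [hvc]
        have := Real.pi_gt_three
        have h4 : 0 < δ⁻¹ ^ 2 := by positivity
        nlinarith
      calc (√(2 * Real.pi * (v:ℝ)))⁻¹ ≤ (2 * δ⁻¹)⁻¹ := by
            apply inv_anti₀ (by positivity) h3
        _ = δ / 2 := by
            rw [mul_inv, inv_inv]; ring
    calc _ ≤ (δ / 2) * 1 := mul_le_mul h2 h1 (Real.exp_nonneg _) (by positivity)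
      _ = δ / 2 := mul_one _
  have h1 : ∫⁻ x in Set.Ioo (-a) a, gaussianPDF 0 v x ≤ ENNReal.ofReal (a * δ) := by
    calc ∫⁻ x in Set.Ioo (-a) a, gaussianPDF 0 v x ≤ ∫⁻ x in Set.Ioo (-a) a, ENNReal.ofReal (δ/2) :=
          lintegral_mono hpdf
      _ = ENNReal.ofReal (a * δ) := by
          rw [setLIntegral_const, Real.volume_Ioo, ← ENNReal.ofReal_mul (by positivity)]
          congr 1
          ring
  calc _ ≤ (ENNReal.ofReal (a * δ)).toReal := ENNReal.toReal_mono ENNReal.ofReal_ne_top h1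
    _ = a * δ := ENNReal.toReal_ofReal (by positivity)

/-- Fourier decay in the vertical direction bounds the mass of horizontal strips. -/
lemma strip_bound (μ : Measure (ℝ × ℝ)) [IsProbabilityMeasure μ] (C s : ℝ) (hs : 0 < s)
    (hdec : ∀ ξ : ℝ × ℝ, 1 ≤ ‖ξ‖ →
      ‖∫ p, Complex.exp (((ξ.1 * p.1 + ξ.2 * p.2 : ℝ) : ℂ) * Complex.I) ∂μ‖ ≤ C * ‖ξ‖ ^ (-s / 2))
    (c δ a : ℝ) (hδ : 0 < δ) (ha : 1 ≤ a) :
    μ.real {x | |x.2 - c| ≤ δ} ≤ 2 * (a * δ + C * a ^ (-s / 2)) := by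
  set v : ℝ≥0 := Real.toNNReal (δ⁻¹ ^ 2) with hv
  have hvc : (v : ℝ) = δ⁻¹ ^ 2 := Real.coe_toNNReal _ (by positivity)
  have hC : 0 ≤ C * a ^ (-s / 2) := by
    have h := hdec (0, a) (by rw [Prod.norm_def]; simp; rw [abs_of_pos (by linarith)]; exact ha)
    have hn : ‖((0:ℝ), a)‖ = a := by
      rw [Prod.norm_def]; simp [abs_of_pos (show 0 < a by linarith)]; linarith
    rw [hn] at h
    exact (norm_nonneg _).trans h
  have hC0 : 0 ≤ C := by
    by_contra hneg
    push Not at hneg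
    have : 0 < a ^ (-s/2) := Real.rpow_pos_of_pos (by linarith) _
    nlinarith
  -- the Gaussian kernel
  have hker : ∀ z : ℝ, ∫ y, Complex.exp (((y * z : ℝ) : ℂ) * Complex.I) ∂(gaussianReal 0 v) =
      ((Real.exp (-(z ^ 2 / (2 * δ ^ 2))) : ℝ) : ℂ) := by
    intro z
    have h := charFun_gaussianReal (μ := 0) (v := v) z
    rw [charFun_apply] at h
    have h2 : ∀ y : ℝ, inner ℝ y z = y * z := by
      intro y; simp [mul_comm]
    simp_rw [h2] at h
    rw [h]
    have hvc' : (((v : ℝ≥0) : ℝ) : ℂ) = (δ : ℂ)⁻¹ ^ 2 := by rw [hvc]; push_cast; ring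
    have : (δ : ℂ) ≠ 0 := by exact_mod_cast hδ.ne'
    rw [hvc']
    push_cast
    congr 1
    field_simp
    ring
  -- swap
  have hswap : ∫ x, (∫ y, Complex.exp (((y * (x.2 - c) : ℝ) : ℂ) * Complex.I) ∂(gaussianReal 0 v)) ∂μ =
      ∫ y, (∫ x, Complex.exp (((y * (x.2 - c) : ℝ) : ℂ) * Complex.I) ∂μ) ∂(gaussianReal 0 v) := by
    refine integral_integral_swap ?_
    refine Integrable.of_bound ?_ 1 (ae_of_all _ fun z => ?_)
    · exact Measurable.aestronglyMeasurable (by unfold Function.uncurry; fun_prop)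
    · unfold Function.uncurry
      rw [Complex.norm_exp_ofReal_mul_I]
  simp_rw [hker] at hswap
  have hinner : ∀ y : ℝ, ‖∫ x, Complex.exp (((y * (x.2 - c) : ℝ) : ℂ) * Complex.I) ∂μ‖ ≤
      (Set.Ioo (-a) a).indicator (fun _ => (1:ℝ)) y + C * a ^ (-s/2) := by
    intro y
    have h1 : ∫ x : ℝ × ℝ, Complex.exp (((y * (x.2 - c) : ℝ) : ℂ) * Complex.I) ∂μ =
        Complex.exp (((-(y * c) : ℝ) : ℂ) * Complex.I) *
          ∫ p : ℝ × ℝ, Complex.exp ((((0, y) : ℝ × ℝ).1 * p.1 + ((0, y) : ℝ × ℝ).2 * p.2 : ℝ) * Complex.I) ∂μ := by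
      rw [← integral_const_mul]
      congr 1
      ext x
      rw [← Complex.exp_add]
      congr 1
      push_cast
      ring
    rw [h1, norm_mul, Complex.norm_exp_ofReal_mul_I, one_mul]
    by_cases hy : y ∈ Set.Ioo (-a) a
    · rw [Set.indicator_of_mem hy]
      have h2 : ‖∫ p : ℝ × ℝ, Complex.exp ((((0, y) : ℝ × ℝ).1 * p.1 + ((0, y) : ℝ × ℝ).2 * p.2 : ℝ) * Complex.I) ∂μ‖ ≤ 1 := by
        refine (norm_integral_le_integral_norm _).trans ?_
        simp_rw [Complex.norm_exp_ofReal_mul_I]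
        simp
      linarith
    · rw [Set.indicator_of_notMem hy, zero_add]
      have hya : a ≤ |y| := by
        by_contra hcon
        push Not at hcon
        exact hy (abs_lt.1 hcon)
      have hn : ‖((0:ℝ), y)‖ = |y| := by
        rw [Prod.norm_def]; simp
      have h3 := hdec (0, y) (by rw [hn]; linarith)
      refine h3.trans ?_
      rw [hn]
      refine mul_le_mul_of_nonneg_left ?_ hC0
      exact Real.rpow_le_rpow_of_nonpos (by linarith) hya (by linarith)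
  have hbound : ∫ x : ℝ × ℝ, Real.exp (-((x.2 - c) ^ 2 / (2 * δ ^ 2))) ∂μ ≤ a * δ + C * a ^ (-s/2) := by
    have h1 : ((∫ x : ℝ × ℝ, Real.exp (-((x.2 - c) ^ 2 / (2 * δ ^ 2))) ∂μ : ℝ) : ℂ) =
        ∫ x : ℝ × ℝ, ((Real.exp (-((x.2 - c) ^ 2 / (2 * δ ^ 2))) : ℝ) : ℂ) ∂μ := integral_ofReal.symm
    have h2 : ‖((∫ x : ℝ × ℝ, Real.exp (-((x.2 - c) ^ 2 / (2 * δ ^ 2))) ∂μ : ℝ) : ℂ)‖ ≤
        ∫ y, ((Set.Ioo (-a) a).indicator (fun _ => (1:ℝ)) y + C * a ^ (-s/2)) ∂(gaussianReal 0 v) := by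
      rw [h1, hswap]
      refine (norm_integral_le_integral_norm _).trans ?_
      refine integral_mono_of_nonneg (ae_of_all _ fun y => norm_nonneg _) ?_ (ae_of_all _ hinner)
      exact ((integrable_const 1).indicator measurableSet_Ioo).add (integrable_const _)
    have h3 : ∫ y, ((Set.Ioo (-a) a).indicator (fun _ => (1:ℝ)) y + C * a ^ (-s/2)) ∂(gaussianReal 0 v) ≤
        a * δ + C * a ^ (-s/2) := by
      rw [integral_add ((integrable_const 1).indicator measurableSet_Ioo) (integrable_const _),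
        integral_indicator measurableSet_Ioo]
      simp only [integral_const, probReal_univ, one_smul, measureReal_restrict_apply_univ, smul_eq_mul, mul_one]
      have := gauss_small hδ a (by linarith)
      linarith
    have h4 : ∫ x : ℝ × ℝ, Real.exp (-((x.2 - c) ^ 2 / (2 * δ ^ 2))) ∂μ ≤
        ‖((∫ x : ℝ × ℝ, Real.exp (-((x.2 - c) ^ 2 / (2 * δ ^ 2))) ∂μ : ℝ) : ℂ)‖ := by
      rw [Complex.norm_real]
      exact le_abs_self _
    linarith
  -- Markov
  have hset : MeasurableSet {x : ℝ × ℝ | |x.2 - c| ≤ δ} :=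
    measurableSet_le (by fun_prop) measurable_const
  have h5 : μ.real {x : ℝ × ℝ | |x.2 - c| ≤ δ} =
      ∫ x, ({x : ℝ × ℝ | |x.2 - c| ≤ δ}).indicator (fun _ => (1:ℝ)) x ∂μ := by
    rw [integral_indicator hset]
    simp
  rw [h5]
  have h6 : ∫ x, ({x : ℝ × ℝ | |x.2 - c| ≤ δ}).indicator (fun _ => (1:ℝ)) x ∂μ ≤
      ∫ x : ℝ × ℝ, 2 * Real.exp (-((x.2 - c) ^ 2 / (2 * δ ^ 2))) ∂μ := by
    refine integral_mono_of_nonneg (ae_of_all _ fun x => ?_) ?_ (ae_of_all _ fun x => ?_)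
    · exact Set.indicator_nonneg (fun _ _ => zero_le_one) x
    · refine Integrable.of_bound (Measurable.aestronglyMeasurable (by fun_prop)) 2 (ae_of_all _ fun x => ?_)
      rw [Real.norm_eq_abs, abs_of_nonneg (by positivity)]
      have : Real.exp (-((x.2 - c) ^ 2 / (2 * δ ^ 2))) ≤ 1 := by
        rw [Real.exp_le_one_iff, neg_nonpos]
        positivity
      linarith
    · simp only
      by_cases hx : x ∈ {x : ℝ × ℝ | |x.2 - c| ≤ δ}
      · rw [Set.indicator_of_mem hx]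
        have h7 : (x.2 - c) ^ 2 / (2 * δ ^ 2) ≤ 1/2 := by
          have : (x.2 - c) ^ 2 ≤ δ ^ 2 := by
            rw [← sq_abs (x.2 - c)]
            exact pow_le_pow_left₀ (abs_nonneg _) hx 2
          rw [div_le_iff₀ (by positivity)]
          linarith
        have h8 : (1:ℝ) - 1/2 ≤ Real.exp (-((x.2 - c) ^ 2 / (2 * δ ^ 2))) := by
          have := Real.add_one_le_exp (-((x.2 - c) ^ 2 / (2 * δ ^ 2)))
          linarith
        linarith
      · rw [Set.indicator_of_notMem hx]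
        positivity
  rw [integral_const_mul] at h6
  linarith

end Pool.Agent.LibStable
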