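import Pool.Agent.LibStable.Proc
import Pool.Agent.LibStable.Conc

set_option autoImplicit false
open MeasureTheory ProbabilityTheory Filter Topology
open scoped ENNReal NNReal

namespace Pool.Agent.LibStable

/-- the number of values of a step path is at most one more than the number of steps -/
lemma card_step_values {ι : Type*} [DecidableEq ι] (F : Finset ι) (w u : ι → ℝ) (I : Set ℝ) :
    ∃ V : Finset ℝ, V.card ≤ F.card + 1 ∧
      ∀ t ∈ I, (∑ p ∈ F, (if u p ≤ t then w p else 0)) ∈ V := by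
  classical
  -- the value only depends on the number of steps before `t`
  have hdep : ∀ s t : ℝ, (F.filter (fun p => u p ≤ s)).card = (F.filter (fun p => u p ≤ t)).card →
      (∑ p ∈ F, (if u p ≤ s then w p else 0)) = ∑ p ∈ F, (if u p ≤ t then w p else 0) := by
    intro s t h
    have hs : F.filter (fun p => u p ≤ s) = F.filter (fun p => u p ≤ t) := by
      rcases le_total s t with hst | hst
      · refine Finset.eq_of_subset_of_card_le ?_ h.ge
        intro p hp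
        rw [Finset.mem_filter] at hp ⊢
        exact ⟨hp.1, hp.2.trans hst⟩
      · symm
        refine Finset.eq_of_subset_of_card_le ?_ h.le
        intro p hp
        rw [Finset.mem_filter] at hp ⊢
        exact ⟨hp.1, hp.2.trans hst⟩
    rw [← Finset.sum_filter, ← Finset.sum_filter, hs]
  let G : ℝ → ℝ := fun t => ∑ p ∈ F, (if u p ≤ t then w p else 0)
  let val : ℕ → ℝ := fun m => if h : ∃ t, (F.filter (fun p => u p ≤ t)).card = m then G h.choose else 0
  refine ⟨(Finset.range (F.card + 1)).image val, ?_, ?_⟩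
  · refine Finset.card_image_le.trans ?_
    simp
  · intro t _
    rw [Finset.mem_image]
    refine ⟨(F.filter (fun p => u p ≤ t)).card, ?_, ?_⟩
    · rw [Finset.mem_range]
      exact Nat.lt_succ_of_le (Finset.card_filter_le _ _)
    · have hex : ∃ s, (F.filter (fun p => u p ≤ s)).card = (F.filter (fun p => u p ≤ t)).card := ⟨t, rfl⟩
      change (if h : ∃ s, (F.filter (fun p => u p ≤ s)).card = (F.filter (fun p => u p ≤ t)).card then G h.choose else 0) = _
      rw [dif_pos hex]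
      exact hdep _ _ hex.choose_spec

/-- The graph of a pure jump path with sparse jumps carries no measure with good vertical
Fourier decay. -/
lemma no_measure {ι : Type*} (w u q : ι → ℝ) (κ : ℝ) (hκ : 0 < κ)
    (hq0 : ∀ p, 0 ≤ q p) (hq : Summable q)
    (hw : ∀ r : ℝ, 1 ≤ r → ∀ p, u p ≤ 1 → w p ≠ 0 → q p < (r ^ 2)⁻¹ → |w p| ≤ κ * (r ^ 19)⁻¹ * q p)
    (hs : ∀ t : ℝ, Summable (fun p => ‖(if u p ≤ t then w p else 0 : ℝ)‖))
    (μ : Measure (ℝ × ℝ)) [IsProbabilityMeasure μ] (K : Set (ℝ × ℝ))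
    (hK : K ⊆ {x : ℝ × ℝ | x.1 ∈ Set.Icc (0:ℝ) 1 ∧ x.2 = ∑' p, (if u p ≤ x.1 then w p else 0 : ℝ)})
    (hμ : μ Kᶜ = 0) (C : ℝ)
    (hdec : ∀ ξ : ℝ × ℝ, 1 ≤ ‖ξ‖ →
      ‖∫ p, Complex.exp (((ξ.1 * p.1 + ξ.2 * p.2 : ℝ) : ℂ) * Complex.I) ∂μ‖ ≤ C * ‖ξ‖ ^ (-(4/5 : ℝ) / 2)) :
    False := by
  classical
  set A : ℝ := ∑' p, q p with hA
  have hA0 : 0 ≤ A := tsum_nonneg hq0
  -- main estimate for each r
  have main : ∀ r : ℝ, 1 ≤ r →
      1 ≤ (A * r ^ 2 + 1) * (2 * (r ^ 10 * (κ * (A + 1) * (r ^ 19)⁻¹) + C * (r ^ 10) ^ (-(4/5:ℝ)/2))) := by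
    intro r hr
    have hr0 : 0 < r := by linarith
    have hfin : {p | (r ^ 2)⁻¹ ≤ q p}.Finite := by
      have h1 := hq.tendsto_cofinite_zero
      have h2 : ∀ᶠ p in cofinite, q p < (r ^ 2)⁻¹ := h1.eventually_lt_const (by positivity)
      rw [eventually_cofinite] at h2
      simpa using h2
    set F : Finset ι := hfin.toFinset with hF
    have hcard : (F.card : ℝ) ≤ A * r ^ 2 := by
      have h1 : (F.card : ℝ) * (r ^ 2)⁻¹ ≤ A := by
        calc (F.card : ℝ) * (r ^ 2)⁻¹ = ∑ p ∈ F, (r ^ 2)⁻¹ := by rw [Finset.sum_const, nsmul_eq_mul]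
          _ ≤ ∑ p ∈ F, q p := Finset.sum_le_sum fun p hp => by
              rw [hF, Set.Finite.mem_toFinset] at hp
              exact hp
          _ ≤ A := hq.sum_le_tsum F (fun p _ => hq0 p)
      have h2 : (0:ℝ) < r ^ 2 := by positivity
      calc (F.card : ℝ) = (F.card : ℝ) * (r ^ 2)⁻¹ * r ^ 2 := by field_simp
        _ ≤ A * r ^ 2 := mul_le_mul_of_nonneg_right h1 h2.le
    set δ : ℝ := κ * (A + 1) * (r ^ 19)⁻¹ with hδ
    have hδ0 : 0 < δ := by positivity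
    obtain ⟨V, hVcard, hV⟩ := card_step_values F w u (Set.Icc (0:ℝ) 1)
    -- the cover
    have hcover : K ⊆ ⋃ c ∈ V, {x : ℝ × ℝ | |x.2 - c| ≤ δ} := by
      intro x hx
      obtain ⟨hx1, hx2⟩ := hK hx
      simp only [Set.mem_iUnion]
      refine ⟨_, hV x.1 hx1, ?_⟩
      rw [Set.mem_ofPred_eq, hx2]
      have hsum : Summable (fun p => (if u p ≤ x.1 then w p else 0 : ℝ)) := (hs x.1).of_norm
      rw [← hsum.sum_add_tsum_compl (s := F), add_sub_cancel_left]
      have hsc : Summable (fun p : ↑((↑F : Set ι)ᶜ) => ‖(if u ↑p ≤ x.1 then w ↑p else 0 : ℝ)‖) :=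
        (hs x.1).subtype _
      rw [← Real.norm_eq_abs]
      refine (norm_tsum_le_tsum_norm hsc).trans ?_
      have hqc : Summable (fun p : ↑((↑F : Set ι)ᶜ) => κ * (r ^ 19)⁻¹ * q ↑p) :=
        (hq.subtype _).mul_left _
      calc ∑' p : ↑((↑F : Set ι)ᶜ), ‖(if u ↑p ≤ x.1 then w ↑p else 0 : ℝ)‖
          ≤ ∑' p : ↑((↑F : Set ι)ᶜ), κ * (r ^ 19)⁻¹ * q ↑p := by
            refine Summable.tsum_le_tsum (fun p => ?_) hsc hqc
            have hp : q ↑p < (r ^ 2)⁻¹ := by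
              by_contra hcon
              refine p.2 (Finset.mem_coe.2 ?_)
              exact hfin.mem_toFinset.2 (not_lt.1 hcon)
            by_cases h1 : u ↑p ≤ x.1
            · rw [if_pos h1]
              by_cases h2 : w ↑p = 0
              · rw [h2, norm_zero]
                have := hq0 ↑p
                positivity
              · exact hw r hr ↑p (h1.trans hx1.2) h2 hp
            · rw [if_neg h1, norm_zero]
              have := hq0 ↑p
              positivity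
        _ = κ * (r ^ 19)⁻¹ * ∑' p : ↑((↑F : Set ι)ᶜ), q ↑p := tsum_mul_left
        _ ≤ κ * (r ^ 19)⁻¹ * (A + 1) := by
            refine mul_le_mul_of_nonneg_left ?_ (by positivity)
            have := Summable.tsum_subtype_le q ((↑F : Set ι)ᶜ) hq0 hq
            linarith
        _ = δ := by rw [hδ]; ring
    have hone : (1:ℝ) ≤ ∑ c ∈ V, μ.real {x : ℝ × ℝ | |x.2 - c| ≤ δ} := by
      have h1 : μ (⋃ c ∈ V, {x : ℝ × ℝ | |x.2 - c| ≤ δ}) = 1 := by
        rw [prob_compl_eq_zero_iff₀ ?_ |>.symm]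
        · exact measure_mono_null (Set.compl_subset_compl.2 hcover) hμ
        · refine MeasurableSet.nullMeasurableSet ?_
          refine Finset.measurableSet_biUnion V fun c _ => ?_
          exact measurableSet_le (by fun_prop) measurable_const
      have h2 : (1:ℝ) = μ.real (⋃ c ∈ V, {x : ℝ × ℝ | |x.2 - c| ≤ δ}) := by
        rw [measureReal_def, h1, ENNReal.toReal_one]
      rw [h2]
      exact measureReal_biUnion_finset_le V _
    have ha : (1:ℝ) ≤ r ^ 10 := one_le_pow₀ hr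
    have hstrip : ∀ c ∈ V, μ.real {x : ℝ × ℝ | |x.2 - c| ≤ δ} ≤
        2 * (r ^ 10 * δ + C * (r ^ 10) ^ (-(4/5:ℝ)/2)) := fun c _ =>
      strip_bound μ C (4/5) (by norm_num) hdec c δ (r ^ 10) hδ0 ha
    have hB : 0 ≤ 2 * (r ^ 10 * δ + C * (r ^ 10) ^ (-(4/5:ℝ)/2)) :=
      measureReal_nonneg.trans (strip_bound μ C (4/5) (by norm_num) hdec 0 δ (r ^ 10) hδ0 ha)
    calc (1:ℝ) ≤ ∑ c ∈ V, μ.real {x : ℝ × ℝ | |x.2 - c| ≤ δ} := hone
      _ ≤ ∑ c ∈ V, 2 * (r ^ 10 * δ + C * (r ^ 10) ^ (-(4/5:ℝ)/2)) := Finset.sum_le_sum hstrip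
      _ = V.card * (2 * (r ^ 10 * δ + C * (r ^ 10) ^ (-(4/5:ℝ)/2))) := by
          rw [Finset.sum_const, nsmul_eq_mul]
      _ ≤ (A * r ^ 2 + 1) * (2 * (r ^ 10 * δ + C * (r ^ 10) ^ (-(4/5:ℝ)/2))) := by
          refine mul_le_mul_of_nonneg_right ?_ hB
          have : (V.card : ℝ) ≤ F.card + 1 := by exact_mod_cast hVcard
          linarith
  -- let r tend to infinity
  have hsimp : ∀ r : ℝ, 1 ≤ r →
      (A * r ^ 2 + 1) * (2 * (r ^ 10 * (κ * (A + 1) * (r ^ 19)⁻¹) + C * (r ^ 10) ^ (-(4/5:ℝ)/2))) ≤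
      (A + 1) * 2 * (κ * (A + 1) + |C|) * r⁻¹ := by
    intro r hr
    have hr0 : 0 < r := by linarith
    have h1 : (r ^ 10) ^ (-(4/5:ℝ)/2) = (r ^ 4)⁻¹ := by
      rw [← Real.rpow_natCast r 10, ← Real.rpow_mul hr0.le, ← Real.rpow_natCast r 4,
        ← Real.rpow_neg hr0.le]
      congr 1
      norm_num
    have h2 : r ^ 10 * (κ * (A + 1) * (r ^ 19)⁻¹) = κ * (A + 1) * (r ^ 9)⁻¹ := by
      field_simp
    rw [h1, h2]
    have h3 : A * r ^ 2 + 1 ≤ (A + 1) * r ^ 2 := by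
      have : 1 ≤ r ^ 2 := one_le_pow₀ hr
      nlinarith
    have h4 : κ * (A + 1) * (r ^ 9)⁻¹ + C * (r ^ 4)⁻¹ ≤ (κ * (A + 1) + |C|) * (r ^ 3)⁻¹ := by
      have h5 : (r ^ 9)⁻¹ ≤ (r ^ 3)⁻¹ := inv_anti₀ (by positivity) (pow_le_pow_right₀ hr (by norm_num))
      have h6 : (r ^ 4)⁻¹ ≤ (r ^ 3)⁻¹ := inv_anti₀ (by positivity) (pow_le_pow_right₀ hr (by norm_num))
      have h7 : C * (r ^ 4)⁻¹ ≤ |C| * (r ^ 3)⁻¹ :=
        (mul_le_mul_of_nonneg_right (le_abs_self C) (by positivity)).trans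
          (mul_le_mul_of_nonneg_left h6 (abs_nonneg _))
      have h8 : κ * (A + 1) * (r ^ 9)⁻¹ ≤ κ * (A + 1) * (r ^ 3)⁻¹ :=
        mul_le_mul_of_nonneg_left h5 (by positivity)
      linarith
    calc (A * r ^ 2 + 1) * (2 * (κ * (A + 1) * (r ^ 9)⁻¹ + C * (r ^ 4)⁻¹))
        ≤ (A * r ^ 2 + 1) * (2 * ((κ * (A + 1) + |C|) * (r ^ 3)⁻¹)) := by
          refine mul_le_mul_of_nonneg_left ?_ (by positivity)
          linarith
      _ ≤ ((A + 1) * r ^ 2) * (2 * ((κ * (A + 1) + |C|) * (r ^ 3)⁻¹)) := by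
          refine mul_le_mul_of_nonneg_right h3 (by positivity)
      _ = (A + 1) * 2 * (κ * (A + 1) + |C|) * r⁻¹ := by
          field_simp
  have hlim : Tendsto (fun r : ℝ => (A + 1) * 2 * (κ * (A + 1) + |C|) * r⁻¹) atTop (𝓝 0) := by
    have := tendsto_inv_atTop_zero (𝕜 := ℝ)
    simpa using this.const_mul ((A + 1) * 2 * (κ * (A + 1) + |C|))
  have hev := (hlim.eventually_lt_const one_pos).and (eventually_ge_atTop (1:ℝ))
  obtain ⟨r, hr1, hr2⟩ := hev.exists
  have := (main r hr2).trans (hsimp r hr2)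
  linarith

end Pool.Agent.LibStable
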