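import Pool.Agent.LibStable.Psi

set_option autoImplicit false
open MeasureTheory ProbabilityTheory Filter Topology
open scoped ENNReal NNReal

namespace Pool.Agent.LibStable

/-- the integrand giving the process at time `t` -/
noncomputable def gt (t : ℝ) (x : ℝ × ℝ) : ℝ := if 0 < x.1 ∧ x.1 ≤ t then kap * jp x.2 else 0

lemma measurable_gt (t : ℝ) : Measurable (gt t) := by
  unfold gt
  refine Measurable.ite ?_ ?_ measurable_const
  · exact (measurableSet_lt measurable_const measurable_fst).inter (measurableSet_le measurable_fst measurable_const)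
  · exact (measurable_jp.comp measurable_snd).const_mul _

/-- the process -/
noncomputable def X (t : ℝ) (ω : Om) : ℝ := S (gt t) ω

lemma measurable_X (t : ℝ) : Measurable (X t) := measurable_S (measurable_gt t)

lemma gt_fin (t : ℝ) : ∫⁻ x, min ‖gt t x‖ₑ 1 ≠ ∞ := by
  refine trunc_fin kap t ?_
  intro x
  unfold gt
  split_ifs with h
  · rw [abs_mul, abs_of_pos kap_pos]
  · simp

/-- the good event -/
def Good (ω : Om) : Prop := ∀ T : ℕ, Summable (fun p => ‖pt (gt T) ω p‖)

lemma ae_good : ∀ᵐ ω ∂PP, Good ω := by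
  unfold Good
  rw [ae_all_iff]
  intro T
  exact ae_summable (measurable_gt T) (gt_fin T)

lemma Good.summable {ω : Om} (h : Good ω) (t : ℝ) : Summable (fun p => ‖pt (gt t) ω p‖) := by
  obtain ⟨T, hT⟩ := exists_nat_ge t
  refine Summable.of_nonneg_of_le (fun p => norm_nonneg _) (fun p => ?_) (h T)
  unfold pt gt
  split_ifs with h1 h2 h3 h3
  · exact le_rfl
  · exact absurd ⟨h2.1, h2.2.trans hT⟩ h3
  · rw [norm_zero]; exact norm_nonneg _
  · exact le_rfl
  · exact le_rfl

/-- one-sided limits of a pure jump path -/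
lemma cadlag_of_summable {ι : Type*} (w u : ι → ℝ)
    (hs : ∀ t : ℝ, Summable (fun p => ‖(if u p ≤ t then w p else 0 : ℝ)‖)) (t : ℝ) :
    ContinuousWithinAt (fun s => ∑' p, (if u p ≤ s then w p else 0 : ℝ)) (Set.Ici t) t ∧
      ∃ l : ℝ, Tendsto (fun s => ∑' p, (if u p ≤ s then w p else 0 : ℝ)) (𝓝[<] t) (𝓝 l) := by
  constructor
  · unfold ContinuousWithinAt
    refine tendsto_tsum_of_dominated_convergence (hs (t+1)) ?_ ?_
    · intro p
      by_cases h : u p ≤ t
      · rw [if_pos h]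
        refine tendsto_const_nhds.congr' ?_
        filter_upwards [self_mem_nhdsWithin] with s hs
        rw [if_pos (h.trans hs)]
      · rw [if_neg h]
        refine tendsto_const_nhds.congr' ?_
        push Not at h
        filter_upwards [mem_nhdsWithin_of_mem_nhds (Iio_mem_nhds h)] with s hs
        rw [if_neg (not_le.2 hs)]
    · filter_upwards [mem_nhdsWithin_of_mem_nhds (Iio_mem_nhds (lt_add_one t))] with s hs p
      split_ifs with h1 h2
      · exact le_rfl
      · exact absurd (h1.trans (le_of_lt hs)) h2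
      · simp
      · simp
  · refine ⟨∑' p, (if u p < t then w p else 0 : ℝ), ?_⟩
    refine tendsto_tsum_of_dominated_convergence (hs (t+1)) ?_ ?_
    · intro p
      by_cases h : u p < t
      · rw [if_pos h]
        refine tendsto_const_nhds.congr' ?_
        filter_upwards [mem_nhdsWithin_of_mem_nhds (Ioi_mem_nhds h)] with s hs
        rw [if_pos (le_of_lt hs)]
      · rw [if_neg h]
        refine tendsto_const_nhds.congr' ?_
        filter_upwards [self_mem_nhdsWithin] with s hs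
        rw [if_neg]
        push Not at h ⊢
        exact lt_of_lt_of_le hs h
    · filter_upwards [self_mem_nhdsWithin] with s hs p
      split_ifs with h1 h2
      · exact le_rfl
      · exact absurd (h1.trans ((le_of_lt hs).trans (by linarith))) h2
      · simp
      · simp

/-- weight of a point -/
noncomputable def wt (ω : Om) (p : (ℤ × ℤ) × ℕ) : ℝ :=
  pt (fun x => if 0 < x.1 then kap * jp x.2 else 0) ω p

/-- time of a point -/
def tm (ω : Om) (p : (ℤ × ℤ) × ℕ) : ℝ := ((ω p.1).2 p.2).1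

lemma pt_gt_eq (t : ℝ) (ω : Om) (p : (ℤ × ℤ) × ℕ) :
    pt (gt t) ω p = if tm ω p ≤ t then wt ω p else 0 := by
  unfold wt pt gt tm
  split_ifs <;> simp_all

lemma X_eq (t : ℝ) (ω : Om) : X t ω = ∑' p, (if tm ω p ≤ t then wt ω p else 0) := by
  unfold X S
  simp_rw [pt_gt_eq]

lemma cadlag_X {ω : Om} (h : Good ω) (t : ℝ) :
    ContinuousWithinAt (fun s => X s ω) (Set.Ici t) t ∧
      ∃ l : ℝ, Tendsto (fun s => X s ω) (𝓝[<] t) (𝓝 l) := by
  have := cadlag_of_summable (wt ω) (tm ω) (fun t => by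
    have := h.summable t
    simp_rw [pt_gt_eq] at this
    exact this) t
  simp_rw [X_eq]
  exact this

lemma X_zero (ω : Om) : X 0 ω = 0 := by
  unfold X S pt gt
  have : ∀ x : ℝ × ℝ, (if 0 < x.1 ∧ x.1 ≤ 0 then kap * jp x.2 else 0) = 0 := by
    intro x
    rw [if_neg]
    rintro ⟨h1, h2⟩
    linarith
  simp [this]

/-- step integrand -/
noncomputable def st {n : ℕ} (t : Fin (n + 1) → ℝ) (ξ : Fin n → ℝ) (x : ℝ × ℝ) : ℝ :=
  ∑ i : Fin n, ξ i * (gt (t i.succ) x - gt (t i.castSucc) x)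

lemma pt_st {n : ℕ} (t : Fin (n + 1) → ℝ) (ξ : Fin n → ℝ) (ω : Om) (p : (ℤ × ℤ) × ℕ) :
    pt (st t ξ) ω p = ∑ i : Fin n, ξ i * (pt (gt (t i.succ)) ω p - pt (gt (t i.castSucc)) ω p) := by
  unfold pt st
  split_ifs
  · rfl
  · simp

lemma S_st {n : ℕ} (t : Fin (n + 1) → ℝ) (ξ : Fin n → ℝ) {ω : Om} (h : Good ω) :
    S (st t ξ) ω = ∑ i : Fin n, ξ i * (X (t i.succ) ω - X (t i.castSucc) ω) := by
  unfold X S
  simp_rw [pt_st]
  rw [Summable.tsum_finsetSum]
  · refine Finset.sum_congr rfl fun i _ => ?_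
    rw [tsum_mul_left, Summable.tsum_sub]
    · exact (h.summable _).of_norm
    · exact (h.summable _).of_norm
  · intro i _
    exact ((h.summable _).of_norm.sub (h.summable _).of_norm).mul_left _

lemma gt_sub {a b : ℝ} (ha : 0 ≤ a) (hab : a ≤ b) (x : ℝ × ℝ) :
    gt b x - gt a x = if x.1 ∈ Set.Ioc a b then kap * jp x.2 else 0 := by
  unfold gt
  by_cases h1 : x.1 ∈ Set.Ioc a b
  · have h2 : 0 < x.1 ∧ x.1 ≤ b := ⟨lt_of_le_of_lt ha h1.1, h1.2⟩
    have h3 : ¬ (0 < x.1 ∧ x.1 ≤ a) := fun h => absurd h1.1 (not_lt.2 h.2)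
    rw [if_pos h1, if_pos h2, if_neg h3, sub_zero]
  · rw [if_neg h1]
    by_cases h2 : 0 < x.1 ∧ x.1 ≤ a
    · rw [if_pos h2, if_pos ⟨h2.1, h2.2.trans hab⟩, sub_self]
    · have h3 : ¬ (0 < x.1 ∧ x.1 ≤ b) := by
        intro h
        apply h1
        refine ⟨?_, h.2⟩
        by_contra h4
        exact h2 ⟨h.1, not_lt.1 h4⟩
      rw [if_neg h2, if_neg h3, sub_zero]

lemma measurable_st {n : ℕ} (t : Fin (n + 1) → ℝ) (ξ : Fin n → ℝ) : Measurable (st t ξ) := by
  unfold st
  exact Finset.measurable_fun_sum _ (fun i _ =>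
    ((measurable_gt _).sub (measurable_gt _)).const_mul _)

lemma gt_abs_le {s T : ℝ} (h : s ≤ T) (x : ℝ × ℝ) :
    |gt s x| ≤ if 0 < x.1 ∧ x.1 ≤ T then kap * |jp x.2| else 0 := by
  unfold gt
  by_cases h1 : 0 < x.1 ∧ x.1 ≤ s
  · rw [if_pos h1, if_pos ⟨h1.1, h1.2.trans h⟩, abs_mul, abs_of_pos kap_pos]
  · rw [if_neg h1, abs_zero]
    have := kap_pos
    split_ifs <;> positivity

lemma st_fin {n : ℕ} (t : Fin (n + 1) → ℝ) (ξ : Fin n → ℝ) :
    ∫⁻ x, min ‖st t ξ x‖ₑ 1 ≠ ∞ := by
  obtain ⟨T, hT⟩ : ∃ T : ℝ, ∀ i, t i ≤ T := by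
    obtain ⟨T, hT⟩ := (Set.finite_range t).bddAbove
    exact ⟨T, fun i => hT ⟨i, rfl⟩⟩
  refine trunc_fin ((∑ i, |ξ i| * (2 * kap))) T ?_
  intro x
  unfold st
  refine (Finset.abs_sum_le_sum_abs _ _).trans ?_
  by_cases h : 0 < x.1 ∧ x.1 ≤ T
  · rw [if_pos h, Finset.sum_mul]
    refine Finset.sum_le_sum fun i _ => ?_
    rw [abs_mul, mul_assoc]
    refine mul_le_mul_of_nonneg_left ?_ (abs_nonneg _)
    have h1 := gt_abs_le (hT i.succ) x
    have h2 := gt_abs_le (hT i.castSucc) x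
    rw [if_pos h] at h1 h2
    have h3 := abs_sub (gt (t i.succ) x) (gt (t i.castSucc) x)
    linarith
  · rw [if_neg h]
    refine le_of_eq (Finset.sum_eq_zero fun i _ => ?_)
    have h1 := gt_abs_le (hT i.succ) x
    have h2 := gt_abs_le (hT i.castSucc) x
    rw [if_neg h] at h1 h2
    rw [abs_nonpos_iff.1 h1, abs_nonpos_iff.1 h2]
    simp

lemma exp_st {n : ℕ} (t : Fin (n + 1) → ℝ) (h0 : 0 ≤ t 0) (ht : StrictMono t) (ξ : Fin n → ℝ)
    (x : ℝ × ℝ) :
    Complex.exp ((st t ξ x : ℂ) * Complex.I) - 1 =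
      ∑ i : Fin n, (Set.Ioc (t i.castSucc) (t i.succ)).indicator (fun _ => (1:ℂ)) x.1 *
        (Complex.exp (((ξ i * kap * jp x.2 : ℝ) : ℂ) * Complex.I) - 1) := by
  have hnn : ∀ i, 0 ≤ t i := fun i => h0.trans (ht.monotone (Fin.zero_le i))
  have hle : ∀ i : Fin n, t i.castSucc ≤ t i.succ := fun i => ht.monotone (Fin.castSucc_le_succ i)
  have hst : st t ξ x = ∑ i : Fin n, ξ i * (if x.1 ∈ Set.Ioc (t i.castSucc) (t i.succ) then kap * jp x.2 else 0) := by
    unfold st
    refine Finset.sum_congr rfl fun i _ => ?_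
    rw [gt_sub (hnn _) (hle i)]
  by_cases hex : ∃ i : Fin n, x.1 ∈ Set.Ioc (t i.castSucc) (t i.succ)
  · obtain ⟨i, hi⟩ := hex
    have huniq : ∀ j : Fin n, j ≠ i → x.1 ∉ Set.Ioc (t j.castSucc) (t j.succ) := by
      intro j hj hxj
      rcases lt_or_gt_of_ne hj with h | h
      · have : j.succ ≤ i.castSucc := by
          rw [Fin.le_iff_val_le_val]
          simp only [Fin.val_succ, Fin.val_castSucc]
          exact h
        have := ht.monotone this
        linarith [hxj.2, hi.1]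
      · have : i.succ ≤ j.castSucc := by
          rw [Fin.le_iff_val_le_val]
          simp only [Fin.val_succ, Fin.val_castSucc]
          exact h
        have := ht.monotone this
        linarith [hi.2, hxj.1]
    rw [hst, Finset.sum_eq_single i, Finset.sum_eq_single i]
    · rw [if_pos hi, Set.indicator_of_mem hi, one_mul, mul_assoc]
    · intro j _ hj
      rw [Set.indicator_of_notMem (huniq j hj), zero_mul]
    · simp
    · intro j _ hj
      rw [if_neg (huniq j hj), mul_zero]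
    · simp
  · push Not at hex
    rw [hst, Finset.sum_eq_zero, Finset.sum_eq_zero]
    · simp
    · intro i _
      rw [Set.indicator_of_notMem (hex i), zero_mul]
    · intro i _
      rw [if_neg (hex i), mul_zero]

lemma integral_exp_st {n : ℕ} (t : Fin (n + 1) → ℝ) (h0 : 0 ≤ t 0) (ht : StrictMono t)
    (ξ : Fin n → ℝ) :
    ∫ x, (Complex.exp ((st t ξ x : ℂ) * Complex.I) - 1) =
      ((∑ i : Fin n, -(t i.succ - t i.castSucc) * |ξ i| ^ ((1:ℝ)/21) : ℝ) : ℂ) := by
  have hle : ∀ i : Fin n, t i.castSucc ≤ t i.succ := fun i => ht.monotone (Fin.castSucc_le_succ i)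
  simp_rw [exp_st t h0 ht ξ]
  have hint : ∀ i : Fin n, Integrable (fun x : ℝ × ℝ =>
      (Set.Ioc (t i.castSucc) (t i.succ)).indicator (fun _ => (1:ℂ)) x.1 *
        (Complex.exp (((ξ i * kap * jp x.2 : ℝ) : ℂ) * Complex.I) - 1)) := by
    intro i
    rw [Measure.volume_eq_prod]
    refine Integrable.mul_prod (f := (Set.Ioc (t i.castSucc) (t i.succ)).indicator (fun _ => (1:ℂ))) ?_ (integrable_psi (ξ i * kap))
    rw [integrable_indicator_iff measurableSet_Ioc]
    refine integrableOn_const ?_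
    rw [Real.volume_Ioc]
    exact ENNReal.ofReal_ne_top
  rw [integral_finsetSum _ (fun i _ => hint i), Complex.ofReal_sum]
  refine Finset.sum_congr rfl fun i _ => ?_
  rw [Measure.volume_eq_prod]
  have h1 := integral_prod_mul (μ := (volume : Measure ℝ)) (ν := (volume : Measure ℝ))
    ((Set.Ioc (t i.castSucc) (t i.succ)).indicator (fun _ => (1:ℂ)))
    (fun v : ℝ => Complex.exp (((ξ i * kap * jp v : ℝ) : ℂ) * Complex.I) - 1)
  rw [h1]
  have h2 := psi_kap (ξ i)
  unfold psi at h2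
  rw [h2, integral_indicator measurableSet_Ioc, setIntegral_const]
  have h3 : volume.real (Set.Ioc (t i.castSucc) (t i.succ)) = t i.succ - t i.castSucc := by
    rw [measureReal_def, Real.volume_Ioc, ENNReal.toReal_ofReal (by linarith [hle i])]
  rw [h3]
  rw [Complex.real_smul]
  push_cast
  ring

/-- joint characteristic function of the increments -/
lemma joint_char {n : ℕ} (t : Fin (n + 1) → ℝ) (h0 : 0 ≤ t 0) (ht : StrictMono t)
    (ξ : Fin n → ℝ) :
    ∫ ω, Complex.exp (((∑ i : Fin n, ξ i * (X (t i.succ) ω - X (t i.castSucc) ω) : ℝ) : ℂ) * Complex.I) ∂PP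
      = ∏ i : Fin n, ((Real.exp (-(t i.succ - t i.castSucc) * |ξ i| ^ ((1:ℝ)/21)) : ℝ) : ℂ) := by
  have h1 := charFunctional (measurable_st t ξ) (st_fin t ξ)
  rw [integral_exp_st t h0 ht ξ, ← Complex.ofReal_exp, Real.exp_sum] at h1
  rw [Complex.ofReal_prod] at h1
  rw [← h1]
  refine integral_congr_ae ?_
  filter_upwards [ae_good] with ω hω
  rw [S_st t ξ hω]

lemma incr_char (s t : ℝ) (hs : 0 ≤ s) (hst : s ≤ t) (ξ : ℝ) :
    ∫ ω, Complex.exp (((ξ * (X t ω - X s ω) : ℝ) : ℂ) * Complex.I) ∂PP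
          = ((Real.exp (-(t - s) * |ξ| ^ ((1:ℝ)/21)) : ℝ) : ℂ) := by
  rcases eq_or_lt_of_le hst with h | h
  · subst h
    simp
  · have hmono : StrictMono ![s, t] := by
      intro i j hij
      fin_cases i <;> fin_cases j <;> simp_all
    have := joint_char (n := 1) ![s, t] hs hmono (fun _ => ξ)
    simpa using this

lemma indep_incr (n : ℕ) (t : Fin (n + 1) → ℝ) (h0 : 0 ≤ t 0) (ht : StrictMono t) :
    iIndepFun (fun (i : Fin n) (ω : Om) => X (t i.succ) ω - X (t i.castSucc) ω) PP := by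
  have hmeas : ∀ i : Fin n, AEMeasurable (fun ω => X (t i.succ) ω - X (t i.castSucc) ω) PP :=
    fun i => ((measurable_X _).sub (measurable_X _)).aemeasurable
  rw [iIndepFun_iff_charFun_pi hmeas]
  intro ξ
  have hle : ∀ i : Fin n, t i.castSucc ≤ t i.succ := fun i => ht.monotone (Fin.castSucc_le_succ i)
  have hnn : ∀ i, 0 ≤ t i := fun i => h0.trans (ht.monotone (Fin.zero_le i))
  have hR : ∀ i : Fin n, charFun (Measure.map (fun ω => X (t i.succ) ω - X (t i.castSucc) ω) PP) (ξ.ofLp i)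
      = ((Real.exp (-(t i.succ - t i.castSucc) * |ξ.ofLp i| ^ ((1:ℝ)/21)) : ℝ) : ℂ) := by
    intro i
    rw [charFun_apply, integral_map (hmeas i) (by fun_prop)]
    rw [← incr_char _ _ (hnn _) (hle i)]
    rfl
  simp_rw [hR]
  rw [← joint_char t h0 ht (fun i => ξ.ofLp i)]
  rw [charFun_apply, integral_map]
  · congr 1
  · have : Measurable (fun ω => fun i : Fin n => X (t i.succ) ω - X (t i.castSucc) ω) :=
      measurable_pi_lambda _ (fun i => (measurable_X _).sub (measurable_X _))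
    exact ((WithLp.measurable_toLp 2 _).comp this).aemeasurable
  · fun_prop

end Pool.Agent.LibStable
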