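import Pool.Agent.LibStable.CharF

set_option autoImplicit false
open MeasureTheory ProbabilityTheory Filter Topology
open scoped ENNReal NNReal

namespace Pool.Agent.LibStable

/-- the jump attached to the mark `v` : an odd negative power -/
noncomputable def jp (v : ℝ) : ℝ := (v⁻¹) ^ 21

lemma measurable_jp : Measurable jp := by
  unfold jp; fun_prop

lemma jp_neg (v : ℝ) : jp (-v) = - jp v := by
  unfold jp
  rw [inv_neg, Odd.neg_pow (by decide)]

lemma min_abs_jp_le (v : ℝ) : min |jp v| 1 ≤ min (|v⁻¹| ^ 2) 1 := by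
  unfold jp
  rw [abs_pow]
  rcases le_total |v⁻¹| 1 with h | h
  · refine min_le_min ?_ le_rfl
    exact pow_le_pow_of_le_one (abs_nonneg _) h (by norm_num)
  · rw [min_eq_right (one_le_pow₀ h), min_eq_right (one_le_pow₀ h)]

lemma min_sq_le (v : ℝ) : min (|v⁻¹| ^ 2) 1 ≤ 2 * (1 + v ^ 2)⁻¹ := by
  rw [sq_abs]
  rcases le_total (v ^ 2) 1 with h | h
  · refine (min_le_right _ _).trans ?_
    rw [← div_eq_mul_inv, le_div_iff₀ (by positivity)]
    linarith
  · refine (min_le_left _ _).trans ?_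
    rw [← div_eq_mul_inv, inv_pow, le_div_iff₀ (by positivity), inv_mul_le_iff₀ (by linarith)]
    linarith

lemma lintegral_q_ne_top : ∫⁻ v : ℝ, ENNReal.ofReal (min (|v⁻¹| ^ 2) 1) ≠ ∞ := by
  have h1 : Integrable (fun v : ℝ => 2 * (1 + v ^ 2)⁻¹) := integrable_inv_one_add_sq.const_mul 2
  have h2 := h1.lintegral_lt_top
  refine ne_top_of_le_ne_top h2.ne (lintegral_mono fun v => ?_)
  exact ENNReal.ofReal_le_ofReal (min_sq_le v)

/-- finiteness of the truncated integral for functions dominated by a product -/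
lemma trunc_fin {g : ℝ × ℝ → ℝ} (B T : ℝ)
    (hb : ∀ x, |g x| ≤ (if 0 < x.1 ∧ x.1 ≤ T then B * |jp x.2| else 0)) :
    ∫⁻ x, min ‖g x‖ₑ 1 ≠ ∞ := by
  have h0 : ∀ x : ℝ × ℝ, min ‖g x‖ₑ 1 ≤
      (Set.Ioc (0:ℝ) T).indicator (fun _ => ENNReal.ofReal (max B 1)) x.1 *
        ENNReal.ofReal (min (|x.2⁻¹| ^ 2) 1) := by
    intro x
    have hx := hb x
    by_cases h : 0 < x.1 ∧ x.1 ≤ T
    · rw [Set.indicator_of_mem (by exact h), ← ENNReal.ofReal_mul (by positivity)]
      rw [if_pos h] at hx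
      have h1 : min ‖g x‖ₑ 1 = ENNReal.ofReal (min |g x| 1) := by
        rw [ENNReal.ofReal_min, ENNReal.ofReal_one, ← Real.norm_eq_abs, ofReal_norm]
      rw [h1]
      refine ENNReal.ofReal_le_ofReal ?_
      have h2 := min_abs_jp_le x.2
      calc min |g x| 1 ≤ min (max B 1 * |jp x.2|) (max B 1 * 1) := by
            refine min_le_min ?_ ?_
            · refine hx.trans ?_
              exact mul_le_mul_of_nonneg_right (le_max_left _ _) (abs_nonneg _)
            · rw [mul_one]; exact le_max_right _ _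
        _ = max B 1 * min |jp x.2| 1 := by
            rw [mul_min_of_nonneg _ _ (by positivity)]
        _ ≤ _ := mul_le_mul_of_nonneg_left h2 (by positivity)
    · rw [if_neg h] at hx
      have : g x = 0 := abs_nonpos_iff.1 hx
      simp [this]
  have hm : Measurable fun v : ℝ => ENNReal.ofReal (min (|v⁻¹| ^ 2) 1) := by fun_prop
  have h1 : ∫⁻ x : ℝ × ℝ, (Set.Ioc (0:ℝ) T).indicator (fun _ => ENNReal.ofReal (max B 1)) x.1 *
        ENNReal.ofReal (min (|x.2⁻¹| ^ 2) 1) =
      (∫⁻ u : ℝ, (Set.Ioc (0:ℝ) T).indicator (fun _ => ENNReal.ofReal (max B 1)) u) *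
        ∫⁻ v : ℝ, ENNReal.ofReal (min (|v⁻¹| ^ 2) 1) := by
    rw [Measure.volume_eq_prod]
    exact lintegral_prod_mul (measurable_const.indicator measurableSet_Ioc).aemeasurable
      hm.aemeasurable
  refine ne_top_of_le_ne_top ?_ (lintegral_mono h0)
  rw [h1]
  refine ENNReal.mul_ne_top ?_ lintegral_q_ne_top
  rw [lintegral_indicator measurableSet_Ioc, setLIntegral_const]
  exact ENNReal.mul_ne_top ENNReal.ofReal_ne_top (by simp [Real.volume_Ioc])

/-- the Levy exponent, before normalization -/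
noncomputable def psi (ξ : ℝ) : ℂ := ∫ v : ℝ, (Complex.exp (((ξ * jp v : ℝ) : ℂ) * Complex.I) - 1)

lemma integrable_psi (ξ : ℝ) :
    Integrable (fun v : ℝ => Complex.exp (((ξ * jp v : ℝ) : ℂ) * Complex.I) - 1) := by
  have h1 : Integrable (fun v : ℝ => 2 * (max |ξ| 1) * (2 * (1 + v ^ 2)⁻¹)) :=
    (integrable_inv_one_add_sq.const_mul 2).const_mul _
  refine h1.mono' ?_ (ae_of_all _ fun v => ?_)
  · have := measurable_jp
    exact Measurable.aestronglyMeasurable (by fun_prop)
  · refine (norm_exp_sub_one_le _).trans ?_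
    rw [mul_assoc 2]
    refine mul_le_mul_of_nonneg_left ?_ (by norm_num)
    rw [Real.norm_eq_abs, abs_mul]
    calc min (|ξ| * |jp v|) 1 ≤ min (max |ξ| 1 * |jp v|) (max |ξ| 1 * 1) := by
            refine min_le_min ?_ ?_
            · exact mul_le_mul_of_nonneg_right (le_max_left _ _) (abs_nonneg _)
            · rw [mul_one]; exact le_max_right _ _
        _ = max |ξ| 1 * min |jp v| 1 := by
            rw [mul_min_of_nonneg _ _ (by positivity)]
        _ ≤ max |ξ| 1 * (2 * (1 + v ^ 2)⁻¹) :=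
            mul_le_mul_of_nonneg_left ((min_abs_jp_le v).trans (min_sq_le v)) (by positivity)

lemma psi_neg (ξ : ℝ) : psi (-ξ) = psi ξ := by
  unfold psi
  rw [← integral_neg_eq_self (fun v : ℝ => Complex.exp (((ξ * jp v : ℝ) : ℂ) * Complex.I) - 1)]
  congr 1
  ext v
  rw [jp_neg]
  congr 4
  ring

lemma psi_scale (l ξ : ℝ) (hl : 0 < l) : psi (l ^ 21 * ξ) = l * psi ξ := by
  unfold psi
  have h := Measure.integral_comp_div (fun v : ℝ => Complex.exp (((ξ * jp v : ℝ) : ℂ) * Complex.I) - 1) l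
  rw [abs_of_pos hl, Complex.real_smul] at h
  rw [← h]
  congr 1
  ext v
  congr 4
  unfold jp
  rw [inv_div, div_pow, inv_pow]
  ring

lemma psi_conj (ξ : ℝ) : (starRingEnd ℂ) (psi ξ) = psi ξ := by
  conv_rhs => rw [← psi_neg]
  unfold psi
  rw [← integral_conj]
  congr 1
  ext v
  rw [map_sub, map_one, ← Complex.exp_conj]
  congr 2
  simp

lemma psi_one_neg : (psi 1).re < 0 := by
  have h0 := integrable_psi 1
  have h1 : (psi 1).re = ∫ v : ℝ, (Complex.exp (((1 * jp v : ℝ) : ℂ) * Complex.I) - 1).re := by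
    unfold psi
    have := integral_re h0
    exact this.symm
  have h2 : ∀ v : ℝ, (Complex.exp (((1 * jp v : ℝ) : ℂ) * Complex.I) - 1).re = - (1 - Real.cos (jp v)) := by
    intro v
    rw [Complex.sub_re, Complex.exp_ofReal_mul_I_re, Complex.one_re]
    ring_nf
  rw [h1]
  simp_rw [h2]
  rw [integral_neg, neg_lt_zero]
  have h3 : Integrable (fun v : ℝ => 1 - Real.cos (jp v)) := by
    have := h0.re
    have h4 : (fun v : ℝ => 1 - Real.cos (jp v)) = fun v => -(RCLike.re (Complex.exp (((1 * jp v : ℝ) : ℂ) * Complex.I) - 1)) := by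
      ext v
      have := h2 v
      change _ = - (Complex.exp (((1 * jp v : ℝ) : ℂ) * Complex.I) - 1).re
      rw [this]; ring
    rw [h4]
    exact this.neg
  rw [integral_pos_iff_support_of_nonneg (fun v => by simpa using Real.cos_le_one _) h3]
  have h5 : Set.Ioo (1:ℝ) 2 ⊆ Function.support (fun v : ℝ => 1 - Real.cos (jp v)) := by
    intro v hv
    rw [Function.mem_support]
    have h6 : 0 < jp v := by
      unfold jp
      have : 0 < v := by linarith [hv.1]
      positivity
    have h7 : jp v ≤ 1 := by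
      unfold jp
      apply pow_le_one₀
      · have : 0 < v := by linarith [hv.1]
        positivity
      · exact inv_le_one_of_one_le₀ hv.1.le
    have h8 : Real.cos (jp v) < 1 := by
      have := Real.cos_lt_cos_of_nonneg_of_le_pi (le_refl (0:ℝ)) (by linarith [Real.pi_gt_three]) h6
      rwa [Real.cos_zero] at this
    linarith
  refine lt_of_lt_of_le ?_ (measure_mono h5)
  rw [Real.volume_Ioo]
  norm_num

/-- the normalizing constant -/
noncomputable def kap : ℝ := ((-(psi 1).re)⁻¹) ^ 21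

lemma kap_pos : 0 < kap := by
  unfold kap
  have := psi_one_neg
  have : 0 < -(psi 1).re := by linarith
  positivity

lemma psi_one : psi 1 = (((psi 1).re : ℝ) : ℂ) := by
  have := psi_conj 1
  rw [Complex.conj_eq_iff_re] at this
  exact this.symm

lemma psi_zero : psi 0 = 0 := by
  unfold psi
  simp

lemma psi_kap (ξ : ℝ) : psi (ξ * kap) = ((-(|ξ| ^ ((1:ℝ)/21)) : ℝ) : ℂ) := by
  rcases eq_or_ne ξ 0 with h | h
  · subst h
    rw [zero_mul, psi_zero]
    simp
  have h1 : psi (ξ * kap) = psi (|ξ| * kap) := by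
    rcases le_total 0 ξ with h2 | h2
    · rw [abs_of_nonneg h2]
    · rw [abs_of_nonpos h2, neg_mul, psi_neg]
  rw [h1]
  set c := -(psi 1).re with hc
  have hcpos : 0 < c := by have := psi_one_neg; linarith
  have habs : 0 < |ξ| := abs_pos.2 h
  set l := |ξ| ^ ((1:ℝ)/21) with hl
  have hlpos : 0 < l := Real.rpow_pos_of_pos habs _
  have hl21 : l ^ 21 = |ξ| := by
    rw [hl, ← Real.rpow_natCast, ← Real.rpow_mul habs.le]
    norm_num
  have h3 : |ξ| * kap = (l * c⁻¹) ^ 21 * 1 := by
    rw [mul_pow, hl21, mul_one]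
    rfl
  rw [h3, psi_scale _ _ (by positivity), psi_one]
  have h4 : (psi 1).re = -c := by rw [hc]; ring
  rw [h4]
  push_cast
  have : (c : ℂ) ≠ 0 := by exact_mod_cast hcpos.ne'
  field_simp

end Pool.Agent.LibStable
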